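import Pool.Agent.Lib.MP_cdd7b4_an.MX.Iface

set_option autoImplicit false

/-! # One point where everything is under control -/

namespace Pool.Agent.Lib.MP_cdd7b4_an.MX.H9

open MeasureTheory
open Pool.Agent.Lib.MP_cdd7b4_an.H80 (av sg av_add av_sub av_const_mul av_mul_const av_const
  av_mono av_nonneg av_equiv av_inv HasType ContainsUniformly)
open scoped BigOperators ENNReal

section gen

variable (𝕜 : Type*) [RCLike 𝕜] {X : Type*} [NormedAddCommGroup X] [NormedSpace 𝕜 X]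

lemma Psi_nonneg {N K D : ℕ} (x : Fin N → Fin K → X) (M : ℕ) (a : Fin D → ℝ) :
    0 ≤ Psi 𝕜 x M a :=
  av_nonneg (fun _ => av_nonneg (fun _ => norm_nonneg _))

lemma Psi_smul {N K D : ℕ} (x : Fin N → Fin K → X) (M : ℕ) (a : Fin D → ℝ) (c : ℝ)
    (hc : 0 ≤ c) :
    Psi 𝕜 (fun n k => ((c : ℝ) : 𝕜) • x n k) M a = c * Psi 𝕜 x M a := by
  simp only [Psi, NR, NU]
  rw [← av_const_mul]
  refine congrArg av (funext fun ν => ?_)
  rw [← av_const_mul]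
  refine congrArg av (funext fun κ => ?_)
  simp only [add_zero, blk]
  have h1 : ∀ s : Fin M, ∑ i, ((a i : ℝ) : 𝕜) • sg 𝕜 (κ s i).2 • ((c : ℝ) : 𝕜) •
      x (ν s) (κ s i).1 = ((c : ℝ) : 𝕜) • ∑ i, ((a i : ℝ) : 𝕜) • sg 𝕜 (κ s i).2 •
      x (ν s) (κ s i).1 := by
    intro s
    rw [Finset.smul_sum]
    refine Finset.sum_congr rfl (fun i _ => ?_)
    rw [smul_comm (((c : ℝ)) : 𝕜) (((a i : ℝ)) : 𝕜), smul_comm (((c : ℝ)) : 𝕜) (sg 𝕜 _)]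
  have h2 : ∑ s, ((1 : ℝ) : 𝕜) • ∑ i, ((a i : ℝ) : 𝕜) • sg 𝕜 (κ s i).2 • ((c : ℝ) : 𝕜) •
      x (ν s) (κ s i).1 = ((c : ℝ) : 𝕜) • ∑ s, ((1 : ℝ) : 𝕜) • ∑ i, ((a i : ℝ) : 𝕜) •
      sg 𝕜 (κ s i).2 • x (ν s) (κ s i).1 := by
    rw [Finset.smul_sum]
    refine Finset.sum_congr rfl (fun s _ => ?_)
    rw [h1 s, smul_comm]
  rw [h2, norm_smul, RCLike.norm_ofReal, abs_of_nonneg hc]

end gen

lemma sum_inv_sq_le (n : ℕ) : ∑ j ∈ Finset.range (n + 1), 1 / (1 + (j : ℝ)) ^ 2 ≤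
    2 - 1 / (1 + (n : ℝ)) := by
  induction n with
  | zero => norm_num
  | succ n ih =>
    rw [Finset.sum_range_succ]
    have h1 : (0 : ℝ) < 1 + n := by positivity
    have h2 : (0 : ℝ) < 1 + (n + 1 : ℕ) := by positivity
    have h3 : 1 / (1 + ((n + 1 : ℕ) : ℝ)) ^ 2 ≤ 1 / (1 + (n : ℝ)) - 1 / (1 + ((n + 1 : ℕ) : ℝ)) := by
      push_cast at h2 ⊢
      rw [div_sub_div _ _ h1.ne' h2.ne', div_le_div_iff₀ (by positivity) (by positivity)]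
      nlinarith
    linarith

/-- PICK. -/
theorem pick (𝕜 : Type*) [RCLike 𝕜] (X : Type*) [NormedAddCommGroup X] [NormedSpace 𝕜 X]
    (hArr : ArrStatement 𝕜 X) : PickStatement 𝕜 X := by
  intro p hp1 hp2 hX hL
  obtain ⟨c, b, hc, hb, H⟩ := hArr p hp1 hp2 hX hL
  set δ : ℝ := c / (200 * b) with hδ
  have hδ0 : 0 < δ := by positivity
  refine ⟨max 1 (1 / δ), le_max_left _ _, ?_⟩
  intro D n J ah aI haI hah
  obtain ⟨N, K, Ω, mΩ, ν, x, hN, hK, Hx⟩ := H (max D 1) (2 ^ (max n J))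
  have hn : ∀ k ≤ n, (2 : ℕ) ^ k ≤ 2 ^ (max n J) := fun k hk =>
    Nat.pow_le_pow_right (by norm_num) (hk.trans (le_max_left _ _))
  have hJ : ∀ k ≤ J, (2 : ℕ) ^ k ≤ 2 ^ (max n J) := fun k hk =>
    Nat.pow_le_pow_right (by norm_num) (hk.trans (le_max_right _ _))
  have h1M : 1 ≤ 2 ^ (max n J) := Nat.one_le_two_pow
  set L : ℝ := lpn p ah with hLdef
  obtain ⟨i1, u1, l1⟩ := Hx D 1 ah (le_max_left _ _) h1M le_rfl
  obtain ⟨i2, u2, -⟩ := Hx D 1 aI (le_max_left _ _) h1M le_rfl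
  have hone : lpn p (fun _ : Fin 1 => (1 : ℝ)) = 1 := by
    simp [lpn]
  have hA := fun j (hj : j ≤ J) => Hx 1 (2 ^ j) (fun _ => (1 : ℝ)) (le_max_right _ _) (hJ j hj)
    Nat.one_le_two_pow
  have hB := fun k (hk : k ≤ n) => Hx D (2 ^ k) ah (le_max_left _ _) (hn k hk)
    Nat.one_le_two_pow
  have hsq : ∀ k : ℕ, Real.sqrt ((2 ^ k : ℕ) : ℝ) = (2 : ℝ) ^ ((k : ℝ) / 2) := by
    intro k
    rw [Real.sqrt_eq_rpow]
    push_cast
    rw [← Real.rpow_natCast, ← Real.rpow_mul (by norm_num)]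
    congr 1
    ring
  set wt : ℕ → ℝ := fun k => 1 / ((1 + (k : ℝ)) ^ 2 * (2 : ℝ) ^ ((k : ℝ) / 2)) with hwt
  have hwt0 : ∀ k, 0 < wt k := by
    intro k
    simp only [hwt]
    positivity
  set φ : Ω → ℝ := fun ω => Psi 𝕜 (x ω) 1 ah - δ * (Psi 𝕜 (x ω) 1 aI +
    ∑ j ∈ Finset.range (J + 1), wt j * Psi 𝕜 (x ω) (2 ^ j) (fun _ : Fin 1 => (1 : ℝ)) +
    ∑ k ∈ Finset.range (n + 1), wt k * Psi 𝕜 (x ω) (2 ^ k) ah) with hφ
  have iA : ∀ j ∈ Finset.range (J + 1), Integrable (fun ω => wt j * Psi 𝕜 (x ω) (2 ^ j)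
      (fun _ : Fin 1 => (1 : ℝ))) ν := by
    intro j hj
    exact (hA j (Nat.lt_succ_iff.1 (Finset.mem_range.1 hj))).1.const_mul _
  have iB : ∀ k ∈ Finset.range (n + 1), Integrable (fun ω => wt k * Psi 𝕜 (x ω) (2 ^ k) ah) ν := by
    intro j hj
    exact (hB j (Nat.lt_succ_iff.1 (Finset.mem_range.1 hj))).1.const_mul _
  have iSA := integrable_finsetSum _ iA
  have iSB := integrable_finsetSum _ iB
  have hint : ∫ ω, φ ω ∂ν = ∫ ω, Psi 𝕜 (x ω) 1 ah ∂ν - δ * (∫ ω, Psi 𝕜 (x ω) 1 aI ∂ν +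
    ∑ j ∈ Finset.range (J + 1), wt j * ∫ ω, Psi 𝕜 (x ω) (2 ^ j) (fun _ : Fin 1 => (1 : ℝ)) ∂ν +
    ∑ k ∈ Finset.range (n + 1), wt k * ∫ ω, Psi 𝕜 (x ω) (2 ^ k) ah ∂ν) := by
    have i3 : Integrable (fun ω => Psi 𝕜 (x ω) 1 aI + ∑ j ∈ Finset.range (J + 1),
        wt j * Psi 𝕜 (x ω) (2 ^ j) (fun _ : Fin 1 => (1 : ℝ))) ν := i2.add iSA
    have i4 : Integrable (fun ω => (Psi 𝕜 (x ω) 1 aI + ∑ j ∈ Finset.range (J + 1),
        wt j * Psi 𝕜 (x ω) (2 ^ j) (fun _ : Fin 1 => (1 : ℝ))) +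
        ∑ k ∈ Finset.range (n + 1), wt k * Psi 𝕜 (x ω) (2 ^ k) ah) ν := i3.add iSB
    have i5 : Integrable (fun ω => δ * ((Psi 𝕜 (x ω) 1 aI + ∑ j ∈ Finset.range (J + 1),
        wt j * Psi 𝕜 (x ω) (2 ^ j) (fun _ : Fin 1 => (1 : ℝ))) +
        ∑ k ∈ Finset.range (n + 1), wt k * Psi 𝕜 (x ω) (2 ^ k) ah)) ν := i4.const_mul δ
    simp only [hφ]
    rw [integral_sub i1 i5, integral_const_mul, integral_add i3 iSB, integral_add i2 iSA,
      integral_finsetSum _ iA, integral_finsetSum _ iB]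
    simp only [integral_const_mul]
  have hL0 : 0 < L := lt_of_lt_of_le one_pos hah
  have hpos : 0 < ∫ ω, φ ω ∂ν := by
    rw [hint]
    have e1 : ∑ j ∈ Finset.range (J + 1), wt j * ∫ ω, Psi 𝕜 (x ω) (2 ^ j)
        (fun _ : Fin 1 => (1 : ℝ)) ∂ν ≤ 2 * b * L := by
      calc ∑ j ∈ Finset.range (J + 1), wt j * ∫ ω, Psi 𝕜 (x ω) (2 ^ j)
            (fun _ : Fin 1 => (1 : ℝ)) ∂ν
          ≤ ∑ j ∈ Finset.range (J + 1), 1 / (1 + (j : ℝ)) ^ 2 * b := by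
            refine Finset.sum_le_sum (fun j hj => ?_)
            have h := (hA j (Nat.lt_succ_iff.1 (Finset.mem_range.1 hj))).2.1
            rw [hone, hsq] at h
            have h2 : (0 : ℝ) < (2 : ℝ) ^ ((j : ℝ) / 2) := by positivity
            calc wt j * ∫ ω, Psi 𝕜 (x ω) (2 ^ j) (fun _ : Fin 1 => (1 : ℝ)) ∂ν
                ≤ wt j * (b * (2 : ℝ) ^ ((j : ℝ) / 2) * 1) :=
                  mul_le_mul_of_nonneg_left h (hwt0 j).le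
              _ = 1 / (1 + (j : ℝ)) ^ 2 * b := by
                  simp only [hwt]
                  field_simp
        _ = (∑ j ∈ Finset.range (J + 1), 1 / (1 + (j : ℝ)) ^ 2) * b := by
            rw [Finset.sum_mul]
        _ ≤ 2 * b := by
            refine mul_le_mul_of_nonneg_right ((sum_inv_sq_le J).trans ?_) hb.le
            have : 0 ≤ 1 / (1 + (J : ℝ)) := by positivity
            linarith
        _ ≤ 2 * b * L := by nlinarith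
    have e2 : ∑ k ∈ Finset.range (n + 1), wt k * ∫ ω, Psi 𝕜 (x ω) (2 ^ k) ah ∂ν ≤
        2 * b * L := by
      calc ∑ k ∈ Finset.range (n + 1), wt k * ∫ ω, Psi 𝕜 (x ω) (2 ^ k) ah ∂ν
          ≤ ∑ j ∈ Finset.range (n + 1), 1 / (1 + (j : ℝ)) ^ 2 * (b * L) := by
            refine Finset.sum_le_sum (fun j hj => ?_)
            have h := (hB j (Nat.lt_succ_iff.1 (Finset.mem_range.1 hj))).2.1
            rw [hsq] at h
            have h2 : (0 : ℝ) < (2 : ℝ) ^ ((j : ℝ) / 2) := by positivity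
            calc wt j * ∫ ω, Psi 𝕜 (x ω) (2 ^ j) ah ∂ν
                ≤ wt j * (b * (2 : ℝ) ^ ((j : ℝ) / 2) * L) :=
                  mul_le_mul_of_nonneg_left h (hwt0 j).le
              _ = 1 / (1 + (j : ℝ)) ^ 2 * (b * L) := by
                  simp only [hwt]
                  field_simp
        _ = (∑ j ∈ Finset.range (n + 1), 1 / (1 + (j : ℝ)) ^ 2) * (b * L) := by
            rw [Finset.sum_mul]
        _ ≤ 2 * (b * L) := by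
            refine mul_le_mul_of_nonneg_right ((sum_inv_sq_le n).trans ?_) (by positivity)
            have : 0 ≤ 1 / (1 + (n : ℝ)) := by positivity
            linarith
        _ = 2 * b * L := by ring
    have e3 : ∫ ω, Psi 𝕜 (x ω) 1 aI ∂ν ≤ 60 * b * L := by
      have h := u2
      simp only [Nat.cast_one, Real.sqrt_one, mul_one] at h
      calc ∫ ω, Psi 𝕜 (x ω) 1 aI ∂ν ≤ b * lpn p aI := h
        _ ≤ b * (60 * L) := mul_le_mul_of_nonneg_left haI hb.le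
        _ = 60 * b * L := by ring
    have e4 : δ * (∫ ω, Psi 𝕜 (x ω) 1 aI ∂ν +
      ∑ j ∈ Finset.range (J + 1), wt j * ∫ ω, Psi 𝕜 (x ω) (2 ^ j) (fun _ : Fin 1 => (1 : ℝ)) ∂ν +
      ∑ k ∈ Finset.range (n + 1), wt k * ∫ ω, Psi 𝕜 (x ω) (2 ^ k) ah ∂ν) ≤ δ * (64 * b * L) :=
      mul_le_mul_of_nonneg_left (by linarith) hδ0.le
    have e5 : δ * (64 * b * L) = 64 / 200 * (c * L) := by
      rw [hδ]
      field_simp
    have e6 : 0 < c * L := mul_pos hc hL0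
    linarith
  obtain ⟨ω, hω⟩ : ∃ ω, 0 < φ ω := by
    by_contra hcon
    push Not at hcon
    have := integral_nonpos hcon (μ := ν)
    linarith
  set A : ℝ := Psi 𝕜 (x ω) 1 ah with hAdef
  have sA0 : ∀ j ∈ Finset.range (J + 1), 0 ≤ wt j * Psi 𝕜 (x ω) (2 ^ j)
      (fun _ : Fin 1 => (1 : ℝ)) := fun j _ => mul_nonneg (hwt0 j).le (Psi_nonneg 𝕜 _ _ _)
  have sB0 : ∀ k ∈ Finset.range (n + 1), 0 ≤ wt k * Psi 𝕜 (x ω) (2 ^ k) ah :=
    fun j _ => mul_nonneg (hwt0 j).le (Psi_nonneg 𝕜 _ _ _)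
  have sA := Finset.sum_nonneg sA0
  have sB := Finset.sum_nonneg sB0
  have sI := Psi_nonneg 𝕜 (x ω) 1 aI
  have hω' : δ * (Psi 𝕜 (x ω) 1 aI +
    ∑ j ∈ Finset.range (J + 1), wt j * Psi 𝕜 (x ω) (2 ^ j) (fun _ : Fin 1 => (1 : ℝ)) +
    ∑ k ∈ Finset.range (n + 1), wt k * Psi 𝕜 (x ω) (2 ^ k) ah) < A := by
    have := hω
    simp only [hφ] at this
    linarith
  have hA0 : 0 < A := lt_of_le_of_lt (mul_nonneg hδ0.le (by linarith)) hω'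
  have hlt : Psi 𝕜 (x ω) 1 aI +
    ∑ j ∈ Finset.range (J + 1), wt j * Psi 𝕜 (x ω) (2 ^ j) (fun _ : Fin 1 => (1 : ℝ)) +
    ∑ k ∈ Finset.range (n + 1), wt k * Psi 𝕜 (x ω) (2 ^ k) ah ≤ 1 / δ * A := by
    rw [div_mul_eq_mul_div, one_mul, le_div_iff₀ hδ0]
    linarith
  have hinv : 0 ≤ A⁻¹ := by positivity
  refine ⟨N, K, fun m k => ((A⁻¹ : ℝ) : 𝕜) • x ω m k, hN, hK, ?_, ?_, ?_, ?_⟩
  · rw [Psi_smul 𝕜 _ _ _ _ hinv]
    exact inv_mul_cancel₀ hA0.ne'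
  · rw [Psi_smul 𝕜 _ _ _ _ hinv]
    refine le_trans ?_ (le_max_right _ _)
    rw [inv_mul_le_iff₀ hA0]
    linarith
  · intro j hj
    rw [Psi_smul 𝕜 _ _ _ _ hinv]
    have h1 := Finset.single_le_sum sA0 (Finset.mem_range.2 (Nat.lt_succ_of_le hj))
    have h2 : wt j * Psi 𝕜 (x ω) (2 ^ j) (fun _ : Fin 1 => (1 : ℝ)) ≤ 1 / δ * A := by
      refine h1.trans ?_
      linarith
    have h3 : 0 < (1 + (j : ℝ)) ^ 2 * (2 : ℝ) ^ ((j : ℝ) / 2) := by positivity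
    have h4 : Psi 𝕜 (x ω) (2 ^ j) (fun _ : Fin 1 => (1 : ℝ)) ≤
        1 / δ * A * ((1 + (j : ℝ)) ^ 2 * (2 : ℝ) ^ ((j : ℝ) / 2)) := by
      simp only [hwt] at h2
      rw [one_div_mul_eq_div, div_le_iff₀ h3] at h2
      exact h2
    rw [inv_mul_le_iff₀ hA0]
    refine h4.trans ?_
    calc 1 / δ * A * ((1 + (j : ℝ)) ^ 2 * (2 : ℝ) ^ ((j : ℝ) / 2))
        ≤ max 1 (1 / δ) * A * ((1 + (j : ℝ)) ^ 2 * (2 : ℝ) ^ ((j : ℝ) / 2)) := by
          refine mul_le_mul_of_nonneg_right (mul_le_mul_of_nonneg_right (le_max_right _ _) hA0.le)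
            h3.le
      _ = A * (max 1 (1 / δ) * (1 + (j : ℝ)) ^ 2 * (2 : ℝ) ^ ((j : ℝ) / 2)) := by ring
  · intro j hj
    rw [Psi_smul 𝕜 _ _ _ _ hinv]
    have h1 := Finset.single_le_sum sB0 (Finset.mem_range.2 (Nat.lt_succ_of_le hj))
    have h2 : wt j * Psi 𝕜 (x ω) (2 ^ j) ah ≤ 1 / δ * A := by
      refine h1.trans ?_
      linarith
    have h3 : 0 < (1 + (j : ℝ)) ^ 2 * (2 : ℝ) ^ ((j : ℝ) / 2) := by positivity
    have h4 : Psi 𝕜 (x ω) (2 ^ j) ah ≤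
        1 / δ * A * ((1 + (j : ℝ)) ^ 2 * (2 : ℝ) ^ ((j : ℝ) / 2)) := by
      simp only [hwt] at h2
      rw [one_div_mul_eq_div, div_le_iff₀ h3] at h2
      exact h2
    rw [inv_mul_le_iff₀ hA0]
    refine h4.trans ?_
    calc 1 / δ * A * ((1 + (j : ℝ)) ^ 2 * (2 : ℝ) ^ ((j : ℝ) / 2))
        ≤ max 1 (1 / δ) * A * ((1 + (j : ℝ)) ^ 2 * (2 : ℝ) ^ ((j : ℝ) / 2)) := by
          refine mul_le_mul_of_nonneg_right (mul_le_mul_of_nonneg_right (le_max_right _ _) hA0.le)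
            h3.le
      _ = A * (max 1 (1 / δ) * (1 + (j : ℝ)) ^ 2 * (2 : ℝ) ^ ((j : ℝ) / 2)) := by ring

end Pool.Agent.Lib.MP_cdd7b4_an.MX.H9
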