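import Pool.Agent.Lib.MP_cdd7b4_an.MX.Iface

set_option autoImplicit false

/-! # Sampling from a subset of the rows -/

namespace Pool.Agent.Lib.MP_cdd7b4_an.MX.H9

open Pool.Agent.Lib.MP_cdd7b4_an.H80 (av sg av_add av_sub av_const_mul av_mul_const av_const
  av_mono av_nonneg av_equiv av_inv)
open scoped BigOperators

section gen

variable {X : Type*} [NormedAddCommGroup X]

/-- Average over a product. -/
lemma av_fst_snd {A B : Type*} [Fintype A] [Fintype B] (f : A × B → ℝ) :
    av f = av (fun a => av (fun b => f (a, b))) := by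
  simp only [av, Fintype.card_prod, Fintype.sum_prod_type, ← Finset.mul_sum]
  push_cast
  rw [mul_inv]
  ring

/-- Replacement of independent summands, one after the other. -/
lemma repl {Q Q' : Type*} [Fintype Q] [Fintype Q'] (g : Q → X) (g' : Q' → X)
    (h : ∀ y : X, av (fun q' => ‖g' q' + y‖) ≤ av (fun q => ‖g q + y‖)) (M : ℕ) :
    ∀ y : X, av (fun κ : Fin M → Q' => ‖∑ s, g' (κ s) + y‖) ≤
      av (fun κ : Fin M → Q => ‖∑ s, g (κ s) + y‖) := by
  induction M with
  | zero =>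
    intro y
    simp [av]
  | succ M ih =>
    intro y
    have e1 : ∀ {Q₀ : Type _} [Fintype Q₀] (g₀ : Q₀ → X) (y : X),
        av (fun κ : Fin (M + 1) → Q₀ => ‖∑ s, g₀ (κ s) + y‖) =
        av (fun q : Q₀ => av (fun κ : Fin M → Q₀ => ‖∑ s, g₀ (κ s) + (g₀ q + y)‖)) := by
      intro Q₀ _ g₀ y
      rw [← av_equiv (Fin.consEquiv (fun _ => Q₀)), av_fst_snd]
      refine congrArg av (funext fun q => congrArg av (funext fun κ => ?_))
      rw [Fin.sum_univ_succ]
      simp only [Fin.consEquiv_apply, Fin.cons_zero, Fin.cons_succ]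
      congr 1
      abel
    have e1' : ∀ (g₀ : Q' → X) (y : X),
        av (fun κ : Fin (M + 1) → Q' => ‖∑ s, g₀ (κ s) + y‖) =
        av (fun q : Q' => av (fun κ : Fin M → Q' => ‖∑ s, g₀ (κ s) + (g₀ q + y)‖)) := by
      intro g₀ y
      rw [← av_equiv (Fin.consEquiv (fun _ => Q')), av_fst_snd]
      refine congrArg av (funext fun q => congrArg av (funext fun κ => ?_))
      rw [Fin.sum_univ_succ]
      simp only [Fin.consEquiv_apply, Fin.cons_zero, Fin.cons_succ]
      congr 1
      abel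
    rw [e1', e1]
    calc av (fun q : Q' => av (fun κ : Fin M → Q' => ‖∑ s, g' (κ s) + (g' q + y)‖))
        ≤ av (fun q : Q' => av (fun κ : Fin M → Q => ‖∑ s, g (κ s) + (g' q + y)‖)) :=
          av_mono (fun q => ih _)
      _ = av (fun κ : Fin M → Q => av (fun q : Q' => ‖∑ s, g (κ s) + (g' q + y)‖)) := by
          rw [← av_fst_snd (fun z : Q' × (Fin M → Q) => ‖∑ s, g (z.2 s) + (g' z.1 + y)‖),
            ← av_fst_snd (fun z : (Fin M → Q) × Q' => ‖∑ s, g (z.1 s) + (g' z.2 + y)‖),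
            ← av_equiv (Equiv.prodComm Q' (Fin M → Q))]
          rfl
      _ ≤ av (fun κ : Fin M → Q => av (fun q : Q => ‖∑ s, g (κ s) + (g q + y)‖)) := by
          refine av_mono (fun κ => ?_)
          have := h (∑ s, g (κ s) + y)
          have e2 : ∀ v : X, ∑ s, g (κ s) + (v + y) = v + (∑ s, g (κ s) + y) := fun v => by abel
          simp only [e2]
          exact this
      _ = av (fun q : Q => av (fun κ : Fin M → Q => ‖∑ s, g (κ s) + (g q + y)‖)) := by
          rw [← av_fst_snd (fun z : Q × (Fin M → Q) => ‖∑ s, g (z.2 s) + (g z.1 + y)‖),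
            ← av_fst_snd (fun z : (Fin M → Q) × Q => ‖∑ s, g (z.1 s) + (g z.2 + y)‖),
            ← av_equiv (Equiv.prodComm Q (Fin M → Q))]
          rfl

end gen

/-- SUB. -/
theorem sub (𝕜 : Type*) [RCLike 𝕜] (X : Type*) [NormedAddCommGroup X] [NormedSpace 𝕜 X]
    (_ : MargStatement) (_ : UncStatement 𝕜 X) : SubStatement 𝕜 X := by
  intro N M Ω _ _ U R hU hR
  obtain ⟨τ, hτ, hτU⟩ := hU
  have hN : 0 < N := by
    obtain ⟨i, hi⟩ := hR
    exact i.pos
  have : Nonempty (Fin N) := ⟨⟨0, hN⟩⟩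
  have : Nonempty R := ⟨⟨hR.choose, hR.choose_spec⟩⟩
  set ρ : ℝ := (R.card : ℝ) / N with hρ
  have hρ0 : 0 ≤ ρ := by positivity
  have hρ1 : ρ ≤ 1 := by
    rw [hρ, div_le_one (by exact_mod_cast hN)]
    have := Finset.card_le_univ R
    rw [Fintype.card_fin] at this
    exact_mod_cast this
  have hnρ : ‖((ρ : ℝ) : 𝕜)‖ = ρ := by
    rw [RCLike.norm_ofReal, abs_of_nonneg hρ0]
  -- the replacement hypothesis
  have key : ∀ y : X, av (fun z : R × Ω => ‖((ρ : ℝ) : 𝕜) • U z.1.1 z.2 + y‖) ≤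
      av (fun z : Fin N × Ω => ‖U z.1 z.2 + y‖) := by
    intro y
    rw [av_fst_snd, av_fst_snd]
    set F : Fin N → ℝ := fun n => av (fun ω => ‖U n ω + y‖) with hF
    have hFy : ∀ n, ‖y‖ ≤ F n := by
      intro n
      have h1 : F n = av (fun ω => (‖U n ω + y‖ + ‖-U n ω + y‖) * 2⁻¹) := by
        rw [av_mul_const, av_add]
        have h2 := av_inv hτ (fun ω => ‖U n ω + y‖)
        simp only [hτU] at h2
        rw [h2]
        simp only [hF]
        ring
      rw [h1]
      have h3 : ‖y‖ = av (fun _ : Ω => ‖y‖) := (av_const _).symm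
      rw [h3]
      refine av_mono (fun ω => ?_)
      have h4 : ‖(U n ω + y) + (-U n ω + y)‖ ≤ ‖U n ω + y‖ + ‖-U n ω + y‖ := norm_add_le _ _
      have h6 : (2 : ℝ) * ‖y‖ ≤ ‖U n ω + y‖ + ‖-U n ω + y‖ := by
        have h7 : (U n ω + y) + (-U n ω + y) = (2 : ℕ) • y := by
          rw [two_nsmul]; abel
        have h8 : ‖((2 : ℕ) : 𝕜) • y‖ = 2 * ‖y‖ := by
          rw [norm_smul]; simp
        rw [h7, ← Nat.cast_smul_eq_nsmul 𝕜, h8] at h4
        exact h4
      linarith
    have hup : ∀ n : R, av (fun ω => ‖((ρ : ℝ) : 𝕜) • U n.1 ω + y‖) ≤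
        ρ * F n.1 + (1 - ρ) * ‖y‖ := by
      intro n
      calc av (fun ω => ‖((ρ : ℝ) : 𝕜) • U n.1 ω + y‖)
          ≤ av (fun ω => ρ * ‖U n.1 ω + y‖ + (1 - ρ) * ‖y‖) := by
            refine av_mono (fun ω => ?_)
            have h1 : ((ρ : ℝ) : 𝕜) • U n.1 ω + y =
                ((ρ : ℝ) : 𝕜) • (U n.1 ω + y) + (((1 - ρ : ℝ)) : 𝕜) • y := by
              push_cast
              rw [smul_add, sub_smul, one_smul]
              abel
            rw [h1]
            refine (norm_add_le _ _).trans ?_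
            rw [norm_smul, norm_smul, hnρ, RCLike.norm_ofReal,
              abs_of_nonneg (by linarith : (0 : ℝ) ≤ 1 - ρ)]
        _ = ρ * F n.1 + (1 - ρ) * ‖y‖ := by
            rw [av_add (fun ω => ρ * ‖U n.1 ω + y‖) (fun _ => (1 - ρ) * ‖y‖), av_const_mul,
              av_const]
    calc av (fun a : R => av (fun b => ‖((ρ : ℝ) : 𝕜) • U a.1 b + y‖))
        ≤ av (fun a : R => ρ * F a.1 + (1 - ρ) * ‖y‖) := av_mono hup
      _ = ρ * av (fun a : R => F a.1) + (1 - ρ) * ‖y‖ := by
          rw [av_add (fun a : R => ρ * F a.1) (fun _ => (1 - ρ) * ‖y‖), av_const_mul, av_const]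
      _ ≤ av F := by
          have hcR : (0 : ℝ) < (R.card : ℝ) := by exact_mod_cast hR.card_pos
          have hcN : (0 : ℝ) < (N : ℝ) := by exact_mod_cast hN
          have h1 : ρ * av (fun a : R => F a.1) = (N : ℝ)⁻¹ * ∑ n ∈ R, F n := by
            simp only [av, Fintype.card_coe, hρ]
            rw [Finset.sum_coe_sort R F]
            field_simp
          have h2 : (1 - ρ) * ‖y‖ ≤ (N : ℝ)⁻¹ * ∑ n ∈ Rᶜ, F n := by
            have h3 : ((Rᶜ.card : ℕ) : ℝ) = N - R.card := by
              rw [Finset.card_compl, Fintype.card_fin, Nat.cast_sub]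
              have := Finset.card_le_univ R
              rwa [Fintype.card_fin] at this
            have h4 : (Rᶜ.card : ℝ) * ‖y‖ ≤ ∑ n ∈ Rᶜ, F n := by
              rw [← nsmul_eq_mul, ← Finset.sum_const]
              exact Finset.sum_le_sum (fun n _ => hFy n)
            have h5 : (1 - ρ) * ‖y‖ = (N : ℝ)⁻¹ * ((Rᶜ.card : ℝ) * ‖y‖) := by
              rw [h3, hρ]
              field_simp
            rw [h5]
            exact mul_le_mul_of_nonneg_left h4 (by positivity)
          have h6 : av F = (N : ℝ)⁻¹ * ∑ n ∈ R, F n + (N : ℝ)⁻¹ * ∑ n ∈ Rᶜ, F n := by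
            rw [← mul_add, Finset.sum_add_sum_compl]
            simp [av]
          rw [h6, h1]
          linarith
  have key2 := repl (fun z : Fin N × Ω => U z.1 z.2)
    (fun z : R × Ω => ((ρ : ℝ) : 𝕜) • U z.1.1 z.2) key M 0
  have eL : ρ * av (fun π : Fin M → R => NR 𝕜 (fun i : R => U i.1) π (fun _ => 1) 0) =
      av (fun κ : Fin M → R × Ω => ‖∑ s, ((ρ : ℝ) : 𝕜) • U (κ s).1.1 (κ s).2 + 0‖) := by
    rw [← av_const_mul, ← av_equiv (Equiv.arrowProdEquivProdArrow (Fin M) (fun _ => R)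
      (fun _ => Ω)).symm, av_fst_snd]
    refine congrArg av (funext fun π => ?_)
    rw [NR, NU, ← av_const_mul]
    refine congrArg av (funext fun κ => ?_)
    simp only [Equiv.arrowProdEquivProdArrow_symm_apply, add_zero, RCLike.ofReal_one, one_smul]
    rw [← Finset.smul_sum, norm_smul, hnρ]
  have eR : av (fun ν : Fin M → Fin N => NR 𝕜 U ν (fun _ => 1) 0) =
      av (fun κ : Fin M → Fin N × Ω => ‖∑ s, U (κ s).1 (κ s).2 + 0‖) := by
    rw [← av_equiv (Equiv.arrowProdEquivProdArrow (Fin M) (fun _ => Fin N)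
      (fun _ => Ω)).symm, av_fst_snd]
    refine congrArg av (funext fun π => ?_)
    rw [NR, NU]
    refine congrArg av (funext fun κ => ?_)
    simp only [Equiv.arrowProdEquivProdArrow_symm_apply, add_zero, RCLike.ofReal_one, one_smul]
  rw [eL, eR]
  exact key2

end Pool.Agent.Lib.MP_cdd7b4_an.MX.H9
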