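import Pool.Agent.Lib.MP_cdd7b4_an.MX.Iface
import Pool.Agent.Lib.MP_cdd7b4_an.MX.H9.Sub

set_option autoImplicit false

/-! # The part of the block vectors above a level is small -/

namespace Pool.Agent.Lib.MP_cdd7b4_an.MX.H9

open MeasureTheory
open Pool.Agent.Lib.MP_cdd7b4_an.H80 (av sg av_add av_sub av_const_mul av_mul_const av_const
  av_mono av_nonneg av_equiv av_inv av_sum av_coord av_sum_coord av_sqrt_le rs_full_le norm_sg
  HasType ContainsUniformly)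
open scoped BigOperators ENNReal

section gen

variable (𝕜 : Type*) [RCLike 𝕜] {X : Type*} [NormedAddCommGroup X] [NormedSpace 𝕜 X]

/-- Jensen's inequality for the concave function `t ↦ t ^ (1/q)`. -/
lemma jensen {Z : Type*} [Fintype Z] [Nonempty Z] (q : ℝ) (hq : 1 ≤ q) (S : Z → ℝ)
    (hS : ∀ z, 0 ≤ S z) : av (fun z => S z ^ (1 / q)) ≤ (av S) ^ (1 / q) := by
  have hq0 : 0 < q := by linarith
  have hc : (0 : ℝ) < Fintype.card Z := by exact_mod_cast Fintype.card_pos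
  have h := Real.rpow_arith_mean_le_arith_mean_rpow Finset.univ
    (fun _ : Z => (Fintype.card Z : ℝ)⁻¹) (fun z => S z ^ (1 / q)) (fun _ _ => by positivity)
    (by simp [Finset.card_univ, hc.ne']) (fun z _ => Real.rpow_nonneg (hS z) _) hq
  have e1 : ∀ z, (S z ^ (1 / q)) ^ q = S z := by
    intro z
    rw [← Real.rpow_mul (hS z), one_div_mul_cancel hq0.ne', Real.rpow_one]
  simp only [e1, ← Finset.mul_sum] at h
  have h0 : 0 ≤ av (fun z => S z ^ (1 / q)) := av_nonneg (fun z => Real.rpow_nonneg (hS z) _)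
  calc av (fun z => S z ^ (1 / q)) = ((av (fun z => S z ^ (1 / q))) ^ q) ^ (1 / q) := by
        rw [← Real.rpow_mul h0, mul_one_div_cancel hq0.ne', Real.rpow_one]
    _ ≤ (av S) ^ (1 / q) := by
        refine Real.rpow_le_rpow (Real.rpow_nonneg h0 _) ?_ (by positivity)
        exact h

/-- Type `q` for one choice of the columns. -/
lemma type_signs {q T : ℝ} (hT : ∀ (n : ℕ) (x : Fin n → X),
    Real.sqrt ((2 ^ n : ℝ)⁻¹ * ∑ e : Fin n → Bool, ‖∑ i, (if e i then x i else - x i)‖ ^ 2)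
      ≤ T * (∑ i, ‖x i‖ ^ q) ^ (1 / q)) {D : ℕ} (z : Fin D → X) :
    av (fun e : Fin D → Bool => ‖∑ i, sg 𝕜 (e i) • z i‖) ≤ T * (∑ i, ‖z i‖ ^ q) ^ (1 / q) := by
  refine le_trans ?_ (hT D z)
  have e1 : ∀ e : Fin D → Bool, ∑ i, sg 𝕜 (e i) • z i = ∑ i, (if e i then z i else - z i) := by
    intro e
    refine Finset.sum_congr rfl (fun i _ => ?_)
    cases e i <;> simp [sg]
  simp only [e1]
  have h := av_sqrt_le (fun e : Fin D → Bool => ‖∑ i, (if e i then z i else - z i)‖ ^ 2)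
    (fun _ => by positivity)
  simp only [Real.sqrt_sq (norm_nonneg _)] at h
  refine h.trans (le_of_eq ?_)
  simp [av]

/-- Type `q` and the average over the columns. -/
lemma blk_le {q T : ℝ} (hT : ∀ (n : ℕ) (x : Fin n → X),
    Real.sqrt ((2 ^ n : ℝ)⁻¹ * ∑ e : Fin n → Bool, ‖∑ i, (if e i then x i else - x i)‖ ^ 2)
      ≤ T * (∑ i, ‖x i‖ ^ q) ^ (1 / q)) {K D : ℕ} (y : Fin K → X) (a : Fin D → ℝ)
    (ha : ∀ i, 0 ≤ a i) :
    av (fun κ : Fin D → Fin K × Bool => ‖blk 𝕜 y a κ‖) ≤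
      T * av (fun k : Fin D → Fin K => (∑ i, (a i * ‖y (k i)‖) ^ q) ^ (1 / q)) := by
  rw [← av_equiv (Equiv.arrowProdEquivProdArrow (Fin D) (fun _ => Fin K)
    (fun _ => Bool)).symm, av_fst_snd, ← av_const_mul]
  refine av_mono (fun k => ?_)
  have h := type_signs 𝕜 hT (fun i => ((a i : ℝ) : 𝕜) • y (k i))
  have e1 : ∀ i, ‖((a i : ℝ) : 𝕜) • y (k i)‖ = a i * ‖y (k i)‖ := by
    intro i
    rw [norm_smul, RCLike.norm_ofReal, abs_of_nonneg (ha i)]
  simp only [e1] at h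
  refine le_trans (le_of_eq ?_) h
  refine congrArg av (funext fun e => ?_)
  simp only [blk, Equiv.arrowProdEquivProdArrow_symm_apply]
  congr 1
  refine Finset.sum_congr rfl (fun i _ => ?_)
  rw [smul_comm]

/-- The moderate part. -/
lemma moderate {q T : ℝ} (hq : 1 ≤ q) (hT0 : 0 ≤ T) (hT : ∀ (n : ℕ) (x : Fin n → X),
    Real.sqrt ((2 ^ n : ℝ)⁻¹ * ∑ e : Fin n → Bool, ‖∑ i, (if e i then x i else - x i)‖ ^ 2)
      ≤ T * (∑ i, ‖x i‖ ^ q) ^ (1 / q)) {N K D : ℕ} (hN : 0 < N) (hK : 0 < K)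
    (y : Fin N → Fin K → X) (a : Fin D → ℝ) (ha : ∀ i, 0 ≤ a i) :
    av (fun n => av (fun κ : Fin D → Fin K × Bool => ‖blk 𝕜 (y n) a κ‖)) ≤
      T * (lpn q a * (av (fun z : Fin N × Fin K => ‖y z.1 z.2‖ ^ q)) ^ (1 / q)) := by
  have : Nonempty (Fin N) := ⟨⟨0, hN⟩⟩
  have : Nonempty (Fin K) := ⟨⟨0, hK⟩⟩
  calc av (fun n => av (fun κ : Fin D → Fin K × Bool => ‖blk 𝕜 (y n) a κ‖))
      ≤ av (fun n => T * av (fun k : Fin D → Fin K =>
          (∑ i, (a i * ‖y n (k i)‖) ^ q) ^ (1 / q))) :=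
        av_mono (fun n => blk_le 𝕜 hT (y n) a ha)
    _ = T * av (fun z : Fin N × (Fin D → Fin K) =>
          (∑ i, (a i * ‖y z.1 (z.2 i)‖) ^ q) ^ (1 / q)) := by
        rw [av_const_mul, av_fst_snd]
    _ ≤ T * (av (fun z : Fin N × (Fin D → Fin K) =>
          ∑ i, (a i * ‖y z.1 (z.2 i)‖) ^ q)) ^ (1 / q) :=
        mul_le_mul_of_nonneg_left (jensen q hq _ (fun z => Finset.sum_nonneg
          (fun i _ => Real.rpow_nonneg (mul_nonneg (ha i) (norm_nonneg _)) _))) hT0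
    _ = T * (lpn q a * (av (fun z : Fin N × Fin K => ‖y z.1 z.2‖ ^ q)) ^ (1 / q)) := by
        congr 1
        have e1 : av (fun z : Fin N × (Fin D → Fin K) => ∑ i, (a i * ‖y z.1 (z.2 i)‖) ^ q) =
            (∑ i, |a i| ^ q) * av (fun z : Fin N × Fin K => ‖y z.1 z.2‖ ^ q) := by
          rw [av_sum, Finset.sum_mul]
          refine Finset.sum_congr rfl (fun i _ => ?_)
          rw [av_fst_snd, av_fst_snd (fun z : Fin N × Fin K => ‖y z.1 z.2‖ ^ q), ← av_const_mul]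
          refine congrArg av (funext fun n => ?_)
          rw [av_coord (ι := Fin D) i (fun k => (a i * ‖y n k‖) ^ q), ← av_const_mul]
          refine congrArg av (funext fun k => ?_)
          rw [abs_of_nonneg (ha i), Real.mul_rpow (ha i) (norm_nonneg _)]
        rw [e1, Real.mul_rpow (Finset.sum_nonneg (fun i _ => Real.rpow_nonneg (abs_nonneg _) _))
          (av_nonneg (fun _ => Real.rpow_nonneg (norm_nonneg _) _)), lpn]

/-- The huge part. -/
lemma huge {N K D : ℕ} (hK : 0 < K) (y : Fin N → Fin K → X)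
    (a : Fin D → ℝ) (ha : ∀ i, 0 ≤ a i) :
    av (fun n => av (fun κ : Fin D → Fin K × Bool => ‖blk 𝕜 (y n) a κ‖)) ≤
      lpn 1 a * av (fun z : Fin N × Fin K => ‖y z.1 z.2‖) := by
  have : Nonempty (Fin K) := ⟨⟨0, hK⟩⟩
  have e0 : lpn 1 a = ∑ i, a i := by
    simp only [lpn, Real.rpow_one, one_div, inv_one]
    exact Finset.sum_congr rfl (fun i _ => abs_of_nonneg (ha i))
  rw [av_fst_snd, ← av_const_mul]
  refine av_mono (fun n => ?_)
  calc av (fun κ : Fin D → Fin K × Bool => ‖blk 𝕜 (y n) a κ‖)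
      ≤ av (fun κ : Fin D → Fin K × Bool => ∑ i, a i * ‖y n (κ i).1‖) := by
        refine av_mono (fun κ => ?_)
        refine (norm_sum_le _ _).trans (Finset.sum_le_sum (fun i _ => ?_))
        rw [norm_smul, norm_smul, norm_sg, one_mul, RCLike.norm_ofReal, abs_of_nonneg (ha i)]
    _ = ∑ i, a i * av (fun k => ‖y n k‖) := by
        rw [av_sum]
        refine Finset.sum_congr rfl (fun i _ => ?_)
        rw [av_coord (ι := Fin D) i (fun z : Fin K × Bool => a i * ‖y n z.1‖), av_const_mul,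
          av_fst_snd]
        simp only [av_const]
    _ = lpn 1 a * av (fun k => ‖y n k‖) := by
        rw [e0, Finset.sum_mul]

/-- `Psi` with the trivial profile is the average of the Rademacher averages. -/
lemma Psi_one {N K : ℕ} (x : Fin N → Fin K → X) (M : ℕ) :
    av (fun f : Fin M → Fin N × Fin K => av (fun e : Fin M → Bool =>
      ‖∑ s, sg 𝕜 (e s) • x (f s).1 (f s).2‖)) = Psi 𝕜 x M (fun _ : Fin 1 => (1 : ℝ)) := by
  rw [Psi]
  rw [← av_equiv (Equiv.arrowProdEquivProdArrow (Fin M) (fun _ => Fin N)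
    (fun _ => Fin K)).symm, av_fst_snd]
  refine congrArg av (funext fun ν => ?_)
  rw [NR, NU]
  rw [← av_equiv (Equiv.arrowCongr (Equiv.refl (Fin M))
    (Equiv.funUnique (Fin 1) (Fin K × Bool)).symm),
    ← av_equiv (Equiv.arrowProdEquivProdArrow (Fin M) (fun _ => Fin K)
    (fun _ => Bool)).symm, av_fst_snd]
  refine congrArg av (funext fun k => ?_)
  refine congrArg av (funext fun e => ?_)
  simp [blk]

end gen

/-- TRUNC. -/
theorem trunc (𝕜 : Type*) [RCLike 𝕜] (X : Type*) [NormedAddCommGroup X] [NormedSpace 𝕜 X]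
    (hHeavy : HeavyStatement) (_ : UncStatement 𝕜 X) (_ : MargStatement) :
    TruncStatement 𝕜 X := by
  intro β q hβ hq1 hq2 hX
  obtain ⟨C, hC, H⟩ := hHeavy β q hβ hq1 hq2
  obtain ⟨T0, hT0⟩ := hX
  set T : ℝ := max T0 0 with hTdef
  have hT00 : 0 ≤ T := le_max_right _ _
  have hT : ∀ (n : ℕ) (x : Fin n → X),
    Real.sqrt ((2 ^ n : ℝ)⁻¹ * ∑ e : Fin n → Bool, ‖∑ i, (if e i then x i else - x i)‖ ^ 2)
      ≤ T * (∑ i, ‖x i‖ ^ q) ^ (1 / q) := by
    intro n x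
    refine (hT0 n x).trans (mul_le_mul_of_nonneg_right (le_max_left _ _) ?_)
    exact Real.rpow_nonneg (Finset.sum_nonneg (fun i _ => Real.rpow_nonneg (norm_nonneg _) _)) _
  refine ⟨T * C ^ (1 / q) + C, by positivity, ?_⟩
  intro N K J D x a hN hK ha hPsi i0 i1 hi hJ
  have : Nonempty (Fin N) := ⟨⟨0, hN⟩⟩
  have : Nonempty (Fin K) := ⟨⟨0, hK⟩⟩
  set g : Fin N × Fin K → ℝ := fun z => ‖x z.1 z.2‖ with hg
  set h : (j : ℕ) → (Fin (2 ^ j) → Fin N × Fin K) → ℝ := fun j f =>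
    av (fun e : Fin (2 ^ j) → Bool => ‖∑ s, sg 𝕜 (e s) • x (f s).1 (f s).2‖) with hh
  have hgh : ∀ j f i, g (f i) ≤ h j f := fun j f i =>
    rs_full_le (𝕜 := 𝕜) (fun s => x (f s).1 (f s).2) i
  have hav : ∀ j ≤ J, av (h j) ≤ β * (1 + j) ^ 2 * (2 : ℝ) ^ ((j : ℝ) / 2) := by
    intro j hj
    simp only [hh]
    rw [Psi_one 𝕜 x (2 ^ j)]
    exact hPsi j hj
  have hgβ : av g ≤ β := by
    have h1 := hav 0 (Nat.zero_le _)
    simp only [Nat.cast_zero, add_zero, one_pow, mul_one, zero_div, Real.rpow_zero] at h1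
    refine le_trans ?_ h1
    rw [← av_coord (ι := Fin (2 ^ 0)) 0 g]
    exact av_mono (fun f => hgh 0 f 0)
  obtain ⟨H1, H2⟩ := H (Fin N × Fin K) g J h (fun z => norm_nonneg _) hgβ
    (fun j f => av_nonneg (fun _ => norm_nonneg _))
    (fun j hj => ⟨hgh j, hav j hj⟩) i0 i1 hi hJ
  classical
  set ym : Fin N → Fin K → X := fun n k =>
    if (2 : ℝ) ^ i0 < ‖x n k‖ ∧ ‖x n k‖ ≤ (2 : ℝ) ^ i1 then x n k else 0 with hym
  set yh : Fin N → Fin K → X := fun n k =>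
    if (2 : ℝ) ^ i1 < ‖x n k‖ then x n k else 0 with hyh
  have h2i : (2 : ℝ) ^ i0 ≤ (2 : ℝ) ^ i1 := pow_le_pow_right₀ (by norm_num) hi
  have hdec : ∀ n k, x n k - xt ((2 : ℝ) ^ i0) x n k = ym n k + yh n k := by
    intro n k
    simp only [xt, hym, hyh]
    by_cases c1 : ‖x n k‖ ≤ (2 : ℝ) ^ i0
    · have c2 : ¬ ((2 : ℝ) ^ i0 < ‖x n k‖ ∧ ‖x n k‖ ≤ (2 : ℝ) ^ i1) := fun h => absurd h.1 c1.not_gt
      have c3 : ¬ (2 : ℝ) ^ i1 < ‖x n k‖ := by linarith
      rw [if_pos c1, if_neg c2, if_neg c3]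
      simp
    · rw [if_neg c1]
      by_cases c3 : (2 : ℝ) ^ i1 < ‖x n k‖
      · have c2 : ¬ ((2 : ℝ) ^ i0 < ‖x n k‖ ∧ ‖x n k‖ ≤ (2 : ℝ) ^ i1) :=
          fun h => absurd h.2 c3.not_ge
        rw [if_neg c2, if_pos c3]
        simp
      · have c2 : ((2 : ℝ) ^ i0 < ‖x n k‖ ∧ ‖x n k‖ ≤ (2 : ℝ) ^ i1) :=
          ⟨not_le.1 c1, not_lt.1 c3⟩
        rw [if_pos c2, if_neg c3]
        simp
  have hblk : ∀ n (κ : Fin D → Fin K × Bool), blk 𝕜 (x n) a κ -
      blk 𝕜 (xt ((2 : ℝ) ^ i0) x n) a κ = blk 𝕜 (ym n) a κ + blk 𝕜 (yh n) a κ := by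
    intro n κ
    simp only [blk]
    rw [← Finset.sum_sub_distrib, ← Finset.sum_add_distrib]
    refine Finset.sum_congr rfl (fun i _ => ?_)
    rw [← smul_sub, ← smul_sub, hdec, smul_add, smul_add]
  calc av (fun n => av (fun κ : Fin D → Fin K × Bool =>
        ‖blk 𝕜 (x n) a κ - blk 𝕜 (xt ((2 : ℝ) ^ i0) x n) a κ‖))
      ≤ av (fun n => av (fun κ : Fin D → Fin K × Bool => ‖blk 𝕜 (ym n) a κ‖) +
          av (fun κ : Fin D → Fin K × Bool => ‖blk 𝕜 (yh n) a κ‖)) := by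
        refine av_mono (fun n => ?_)
        rw [← av_add]
        refine av_mono (fun κ => ?_)
        rw [hblk]
        exact norm_add_le _ _
    _ = av (fun n => av (fun κ : Fin D → Fin K × Bool => ‖blk 𝕜 (ym n) a κ‖)) +
          av (fun n => av (fun κ : Fin D → Fin K × Bool => ‖blk 𝕜 (yh n) a κ‖)) := av_add _ _
    _ ≤ T * (lpn q a * (av (fun z : Fin N × Fin K => ‖ym z.1 z.2‖ ^ q)) ^ (1 / q)) +
          lpn 1 a * av (fun z : Fin N × Fin K => ‖yh z.1 z.2‖) :=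
        add_le_add (moderate 𝕜 hq1 hT00 hT hN hK ym a ha) (huge 𝕜 hK yh a ha)
    _ ≤ T * (lpn q a * (C * (1 + i0) ^ 4 * (2 : ℝ) ^ (-((2 - q) * i0))) ^ (1 / q)) +
          lpn 1 a * (C * (1 + i1) ^ 2 * (2 : ℝ) ^ (-((i1 : ℝ) / 2))) := by
        have hl1 : 0 ≤ lpn 1 a := Real.rpow_nonneg (Finset.sum_nonneg (fun i _ =>
          Real.rpow_nonneg (abs_nonneg _) _)) _
        have hlq : 0 ≤ lpn q a := Real.rpow_nonneg (Finset.sum_nonneg (fun i _ =>
          Real.rpow_nonneg (abs_nonneg _) _)) _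
        refine add_le_add (mul_le_mul_of_nonneg_left (mul_le_mul_of_nonneg_left
          (Real.rpow_le_rpow (av_nonneg (fun _ => Real.rpow_nonneg (norm_nonneg _) _)) ?_
            (by positivity)) hlq) hT00) (mul_le_mul_of_nonneg_left ?_ hl1)
        · refine le_trans (le_of_eq (congrArg av (funext fun z => ?_))) H1
          simp only [hym, hg]
          split_ifs
          · rfl
          · rw [norm_zero, Real.zero_rpow (by linarith)]
        · refine le_trans (le_of_eq (congrArg av (funext fun z => ?_))) H2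
          simp only [hyh, hg]
          split_ifs
          · rfl
          · rw [norm_zero]
    _ ≤ (T * C ^ (1 / q) + C) * ((1 + i0) ^ 4 * (2 : ℝ) ^ (-((2 - q) * i0))) ^ (1 / q) *
          lpn q a + (T * C ^ (1 / q) + C) * (1 + i1) ^ 2 * (2 : ℝ) ^ (-((i1 : ℝ) / 2)) *
          lpn 1 a := by
        have hl1 : 0 ≤ lpn 1 a := Real.rpow_nonneg (Finset.sum_nonneg (fun i _ =>
          Real.rpow_nonneg (abs_nonneg _) _)) _
        have hlq : 0 ≤ lpn q a := Real.rpow_nonneg (Finset.sum_nonneg (fun i _ =>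
          Real.rpow_nonneg (abs_nonneg _) _)) _
        rw [mul_assoc C, Real.mul_rpow hC.le (by positivity)]
        set Y : ℝ := ((1 + i0) ^ 4 * (2 : ℝ) ^ (-((2 - q) * i0))) ^ (1 / q) with hY
        have hY0 : 0 ≤ Y := by positivity
        have hCq : 0 ≤ C ^ (1 / q) := by positivity
        have hP : 0 ≤ (1 + (i1 : ℝ)) ^ 2 * (2 : ℝ) ^ (-((i1 : ℝ) / 2)) := by positivity
        have t1 : 0 ≤ C * Y * lpn q a := by positivity
        have t2 : 0 ≤ T * C ^ (1 / q) * (((1 + (i1 : ℝ)) ^ 2 * (2 : ℝ) ^ (-((i1 : ℝ) / 2)))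
          * lpn 1 a) := by positivity
        nlinarith

end Pool.Agent.Lib.MP_cdd7b4_an.MX.H9
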